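import Pool.Agent.H93.AB.Tri
import Pool.Agent.H3.MX.Sub

/-!
# Project AB: the mixed complex, comparison with trivial coefficients
-/

set_option autoImplicit false
set_option linter.unusedSectionVars false

namespace Pool.Agent.H93.AB

open Finset
open Pool.Agent.H4.Atiyah Pool.Agent.H78.RA Pool.Agent.H3.MX

section

open Classical

variable {Y : Type} [Fintype Y] {Γ : Type} [Group Γ]

/-- the allowed cells with a condition on the dimension -/
def Ac (F : Y → Prop) (K : Finset Y → Prop) (c : ℕ → Prop) (p : Finset Y × Finset Y) : Prop :=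
  Al F K p ∧ c p.2.card

/-- the boundary operator -/
noncomputable def Dq (ν : Y → ℕ) (E : Y → BB Γ) (N : Finset Y → Y → BB Γ)
    (P Q : Finset Y × Finset Y → Prop) : LL (Iy P) Γ →L[ℂ] LL (Iy Q) Γ :=
  Mq P Q fun a b => ∑ y ∈ (b.2)ᶜ, if fc y b = a then sg ν b.2 y • Ty E N y b else 0

theorem cq_Dq {ν : Y → ℕ} {E : Y → BB Γ} {N : Finset Y → Y → BB Γ} {F : Y → Prop}
    {K : Finset Y → Prop} (hK : ∀ σ τ, τ ⊆ σ → K σ → K τ) (hE : ∀ y, ¬ F y → E y = 0)
    {c c' : ℕ → Prop} (hc : ∀ n, c (n + 1) → c' n) (x : LL (Iy (Ac F K c)) Γ)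
    (b : Finset Y × Finset Y) :
    cq (Ac F K c') (Dq ν E N (Ac F K c) (Ac F K c') x) b = dF ν E N (cq (Ac F K c) x) b := by
  by_cases hb : Ac F K c' b
  · unfold Dq
    rw [cq_Mq _ _ _ _ _ hb]
    have h1 : ∀ a, (∑ y ∈ (b.2)ᶜ, if fc y b = a then sg ν b.2 y • Ty E N y b else 0)
        (cq (Ac F K c) x a) = ∑ y ∈ (b.2)ᶜ, if fc y b = a then
          sg ν b.2 y • Ty E N y b (cq (Ac F K c) x a) else 0 := by
      intro a
      rw [_root_.sum_apply]
      refine sum_congr rfl fun y _ => ?_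
      split_ifs <;> rfl
    rw [sum_congr rfl fun a _ => h1 a, sum_comm]
    unfold dF
    refine sum_congr rfl fun y _ => ?_
    rw [sum_ite_eq univ (fc y b) fun a => sg ν b.2 y • Ty E N y b (cq (Ac F K c) x a),
      if_pos (mem_univ _)]
  · rw [cq_neg _ _ hb]
    by_contra h0
    exact hb (dF_supp hK hE hc (fun p hp => cq_supp x p hp) b (Ne.symm h0))

theorem eqv_Dq (ν : Y → ℕ) {E : Y → BB Γ} {N : Finset Y → Y → BB Γ}
    (P Q : Finset Y × Finset Y → Prop) (hE : ∀ y, Eqv (E y)) (hN : ∀ τ y, Eqv (N τ y)) :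
    Eqv (Dq ν E N P Q) := by
  refine eqv_Mq _ _ _ fun a b => Eqv.sum _ _ fun y _ => ?_
  split_ifs
  · refine Eqv.zsmul _ ?_
    unfold Ty
    split_ifs
    · have h : -E y = (-1 : ℂ) • E y := by rw [neg_smul, one_smul]
      rw [h]
      exact (hE y).smul _
    · exact hN _ _
  · exact Eqv.zero

/-- the invariant chains -/
noncomputable def Xq (Kf : Y → Multiset Γ) (P : Finset Y × Finset Y → Prop) :
    Submodule ℂ (LL (Iy P) Γ) :=
  ⨅ (p : Iy P) (y : Y) (_ : y ∈ p.1.1) (k : Γ) (_ : k ∈ Kf y), kr ((Rt k - 1) ∘L pr p)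

theorem mem_Xq {Kf : Y → Multiset Γ} {P : Finset Y × Finset Y → Prop} {x : LL (Iy P) Γ} :
    x ∈ Xq Kf P ↔ ∀ p, cq P x p ∈ VQ Kf p.1 := by
  unfold Xq
  simp only [Submodule.mem_iInf, mem_kr, mem_VQ]
  constructor
  · intro h p y hy k hk
    by_cases hp : P p
    · rw [cq_pos _ _ hp]
      have h1 : Rt k (pr (⟨p, hp⟩ : Iy P) x) - pr (⟨p, hp⟩ : Iy P) x = 0 := h ⟨p, hp⟩ y hy k hk
      exact sub_eq_zero.1 h1
    · rw [cq_neg _ _ hp, map_zero]
  · intro h p y hy k hk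
    have h1 := h p.1 y hy k hk
    rw [cq_pos _ _ p.2] at h1
    show Rt k (pr p x) - pr p x = 0
    exact sub_eq_zero.2 h1

theorem isClosed_Xq (Kf : Y → Multiset Γ) (P : Finset Y × Finset Y → Prop) :
    IsClosed (Xq Kf P : Set (LL (Iy P) Γ)) := by
  unfold Xq
  simp only [Submodule.coe_iInf]
  exact isClosed_iInter fun p => isClosed_iInter fun y => isClosed_iInter fun _ =>
    isClosed_iInter fun k => isClosed_iInter fun _ => isClosed_kr _

theorem eqv_Rt (k : Γ) : Eqv (Rt k) := eqv_Eop () () k⁻¹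

theorem inv_Xq (Kf : Y → Multiset Γ) (P : Finset Y × Finset Y → Prop) :
    Pool.Agent.H78.RA.Inv (Xq Kf P) := by
  intro g x hx
  unfold Xq at hx ⊢
  simp only [Submodule.mem_iInf] at hx ⊢
  intro p y hy k hk
  exact Inv.kr (((eqv_Rt k).sub Eqv.one).comp (eqv_Eop p () 1)) g x (hx p y hy k hk)

/-- **The comparison theorem**, operator form. -/
theorem approx_ab {ν : Y → ℕ} (hν : Function.Injective ν) {F : Y → Prop} {K : Finset Y → Prop}
    (hK : ∀ σ τ, τ ⊆ σ → K σ → K τ) {Kf : Y → Multiset Γ} (hF : ∀ y, ¬ F y → Kf y = 0)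
    (hgrp : ∀ y, ∀ k ∈ Kf y, (Kf y).map (fun l => k * l) = Kf y)
    (hcom : ∀ y z, y ≠ z → K {y, z} → ∀ k ∈ Kf y, ∀ l ∈ Kf z, k * l = l * k)
    (N : Finset Y → Y → BB Γ) (α : Finset Y → BB Γ) (hN : ∀ τ y, Eqv (N τ y))
    (hα : ∀ σ, Eqv (α σ)) (hN1 : ∀ τ y, F y → N τ y = 1)
    (hmul : ∀ τ y, y ∉ τ → K (insert y τ) → α (insert y τ) = α τ * N τ y)
    (hinj : ∀ σ, K σ → ∀ x, α σ x = 0 → x = 0)
    (hRN : ∀ τ y z, y ∉ τ → z ∉ τ → z ≠ y → K (insert z (insert y τ)) → ∀ k ∈ Kf z, ∀ x,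
      Rt k (N τ y x) = N τ y (Rt k x))
    (hRα : ∀ τ z, z ∉ τ → K (insert z τ) → ∀ k ∈ Kf z, ∀ x, Rt k (α τ x) = α τ (Rt k x))
    {i : ℕ} (hex : ∀ Q : Finset Y, (∀ y ∈ Q, F y) → K Q → Ex ℂ ν (Lk K Q i) (Lk K Q (i + 1)))
    (x : LL (Iy (Ac F K fun n => n = i)) Γ) (hx : x ∈ Xq Kf (Ac F K fun n => n = i))
    (hd : Dq ν (fun y => Kop (Kf y)) N (Ac F K fun n => n = i) (Ac F K fun n => n + 1 = i) x = 0)
    (ε : ℝ) (hε : 0 < ε) :
    ∃ y ∈ Xq Kf (Ac F K fun n => n = i + 1), ‖x - Dq ν (fun y => Kop (Kf y)) N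
      (Ac F K fun n => n = i + 1) (Ac F K fun n => n = i) y‖ < ε := by
  have hE0 : ∀ y, ¬ F y → (Kop (Kf y) : BB Γ) = 0 := fun y hy => by rw [hF y hy, Kop_zero]
  have hEE : ∀ y z, y ≠ z → K {y, z} → ∀ x : LL Unit Γ, (Kop (Kf y) : BB Γ) (Kop (Kf z) x) =
      Kop (Kf z) (Kop (Kf y) x) := fun y z hyz hyzK x => Kop_Kop (hcom y z hyz hyzK) x
  have hEe : ∀ y, Eqv (Kop (Kf y) : BB Γ) := fun y => eqv_Kop _
  have h10 : ∀ n : ℕ, (fun n => n = i) (n + 1) → (fun n => n + 1 = i) n := fun n hn => hn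
  have h21 : ∀ n : ℕ, (fun n => n = i + 1) (n + 1) → (fun n => n = i) n := fun n hn => by
    have : n + 1 = i + 1 := hn
    omega
  have hRN1 : ∀ (τ : Finset Y) (y z : Y), y ∉ τ → z ∉ τ → z ≠ y → K (insert z (insert y τ)) →
      ∀ k ∈ Kf z, ∀ x : LL Unit Γ, Rt k ((1 : BB Γ) x) = (1 : BB Γ) (Rt k x) :=
    fun _ _ _ _ _ _ _ _ _ _ => rfl
  -- the letters of `Q` are not in `σ`, and form a simplex with it
  have hQσ : ∀ p, Al F K p → ∀ z ∈ p.1, z ∉ p.2 ∧ K (insert z p.2) := by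
    intro p hp z hz
    refine ⟨fun h => disjoint_left.1 hp.2.1 hz h, hK _ _ ?_ hp.2.2⟩
    intro w hw
    rcases mem_insert.1 hw with rfl | hw
    · exact mem_union_left _ hz
    · exact mem_union_right _ hw
  -- the diagonal operator is injective
  have hA : ∀ (c : ℕ → Prop) (x : LL (Iy (Ac F K c)) Γ),
      Aq (Ac F K c) (fun p => α p.2) x = 0 → x = 0 := by
    intro c x hx
    apply cq_ext
    intro p
    rw [cq_zero]
    by_cases h : Ac F K c p
    · apply hinj p.2 (hK _ _ subset_union_right h.1.2.2)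
      have h1 := cq_Aq (Ac F K c) (fun p => α p.2) x p
      rw [hx, cq_zero] at h1
      exact h1.symm
    · exact cq_neg _ _ h
  -- it preserves the invariant chains
  have hXA : ∀ (c : ℕ → Prop), ∀ x ∈ Xq Kf (Ac F K c),
      Aq (Ac F K c) (fun p => α p.2) x ∈ Xq Kf (Ac F K c) := by
    intro c x hx
    rw [mem_Xq] at hx ⊢
    intro p
    rw [cq_Aq]
    by_cases h : Ac F K c p
    · rw [mem_VQ]
      intro z hz k hk
      obtain ⟨h1, h2⟩ := hQσ p h.1 z hz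
      rw [hRα p.2 z h1 h2 k hk, (mem_VQ.1 (hx p)) z hz k hk]
    · rw [cq_neg _ _ h, map_zero]
      exact Submodule.zero_mem _
  -- the chain map
  have hch : ∀ (c c' : ℕ → Prop), (∀ n, c (n + 1) → c' n) → ∀ x : LL (Iy (Ac F K c)) Γ,
      Dq ν (fun y => Kop (Kf y)) (fun _ _ => 1) (Ac F K c) (Ac F K c')
        (Aq (Ac F K c) (fun p => α p.2) x) =
      Aq (Ac F K c') (fun p => α p.2)
        (Dq ν (fun y => Kop (Kf y)) N (Ac F K c) (Ac F K c') x) := by
    intro c c' hc x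
    apply cq_ext
    intro p
    rw [cq_Dq hK hE0 hc, cq_Aq, cq_Dq hK hE0 hc]
    unfold dF
    rw [map_sum]
    refine sum_congr rfl fun y hy => ?_
    have hy' := mem_compl.1 hy
    rw [map_zsmul, cq_Aq]
    congr 1
    by_cases h0 : cq (Ac F K c) x (fc y p) = 0
    · rw [h0]
      simp only [map_zero]
    have hAc := cq_supp x _ h0
    have hKi := k_of_fc hK hAc.1
    have hKy : K (insert y p.2) := hK _ _ (insert_subset_insert _ subset_union_right) hKi
    have h2 : (fc y p).2 = insert y p.2 := rfl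
    rw [h2]
    unfold Ty
    by_cases hyQ : y ∈ p.1
    · rw [if_pos hyQ, if_pos hyQ]
      by_cases hFy : F y
      · have h3 : α (insert y p.2) = α p.2 := by
          rw [hmul p.2 y hy' hKy, hN1 _ _ hFy, mul_one]
        rw [h3]
        show -(Kop (Kf y) (α p.2 (cq (Ac F K c) x (fc y p)))) =
          α p.2 (-(Kop (Kf y) (cq (Ac F K c) x (fc y p))))
        rw [map_neg]
        congr 1
        exact (map_Kop ((α p.2 : BB Γ) : LL Unit Γ →+ LL Unit Γ) (Kf y)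
          (fun k hk x => (hRα p.2 y hy' hKy k hk x).symm) _).symm
      · have h4 : (-(fun y => Kop (Kf y)) y : BB Γ) = 0 := by
          show -Kop (Kf y) = 0
          rw [hE0 y hFy, neg_zero]
        rw [h4]
        show (0 : LL Unit Γ) = α p.2 0
        rw [map_zero]
    · rw [if_neg hyQ, if_neg hyQ, hmul p.2 y hy' hKy]
      rfl
  -- the square of the boundary with trivial coefficients
  have hee : ∀ x : LL (Iy (Ac F K fun n => n = i + 1)) Γ,
      Dq ν (fun y => Kop (Kf y)) (fun _ _ => 1) (Ac F K fun n => n = i)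
        (Ac F K fun n => n + 1 = i) (Dq ν (fun y => Kop (Kf y)) (fun _ _ => 1)
          (Ac F K fun n => n = i + 1) (Ac F K fun n => n = i) x) = 0 := by
    intro x
    apply cq_ext
    intro p
    rw [cq_Dq hK hE0 h10, cq_zero]
    have h1 : cq (Ac F K fun n => n = i) (Dq ν (fun y => Kop (Kf y)) (fun _ _ => 1)
        (Ac F K fun n => n = i + 1) (Ac F K fun n => n = i) x) =
        dF ν (fun y => Kop (Kf y)) (fun _ _ => 1) (cq (Ac F K fun n => n = i + 1) x) :=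
      funext fun q => cq_Dq hK hE0 h21 x q
    rw [h1]
    exact dF_dF hν hK hEE (fun q hq => (cq_supp x q hq).1) p
  refine approx_sub
    (Dq ν (fun y => Kop (Kf y)) N (Ac F K fun n => n = i) (Ac F K fun n => n + 1 = i))
    (Dq ν (fun y => Kop (Kf y)) (fun _ _ => 1) (Ac F K fun n => n = i) (Ac F K fun n => n + 1 = i))
    (Dq ν (fun y => Kop (Kf y)) N (Ac F K fun n => n = i + 1) (Ac F K fun n => n = i))
    (Dq ν (fun y => Kop (Kf y)) (fun _ _ => 1) (Ac F K fun n => n = i + 1)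
      (Ac F K fun n => n = i))
    (Aq _ fun p => α p.2) (Aq _ fun p => α p.2) (Aq _ fun p => α p.2) (Xq Kf _) (Xq Kf _)
    (isClosed_Xq _ _) (isClosed_Xq _ _) (inv_Xq _ _) (inv_Xq _ _) (eqv_Dq _ _ _ hEe hN)
    (eqv_Dq _ _ _ hEe hN) (eqv_Dq _ _ _ hEe fun _ _ => Eqv.one) (eqv_Aq _ _ fun p => hα p.2)
    (eqv_Aq _ _ fun p => hα p.2) ?_ (hXA _) (hXA _) ?_ (fun x _ => hch _ _ h10 x)
    (fun x _ => hch _ _ h21 x) (fun x _ => hA _ x) (fun x _ => hA _ x) ?_ x hx hd ε hε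
  · -- the boundary preserves the invariant chains
    intro y hy
    rw [mem_Xq] at hy ⊢
    intro p
    rw [cq_Dq hK hE0 h21]
    exact dF_inv hK hgrp hcom hRN (fun q hq => (cq_supp y q hq).1) hy p
  · intro y _
    apply hA
    rw [← hch _ _ h10, ← hch _ _ h21, hee]
  · intro f hf hfe
    have hfe' : ∀ p, dF ν (fun y => Kop (Kf y)) (fun _ _ => 1) (cq _ f) p = 0 := by
      intro p
      rw [← cq_Dq hK hE0 h10, hfe, cq_zero]
    obtain ⟨w, hw1, hw2, hw3⟩ := exact_tri hν hK hF hgrp hcom hex (cq _ f)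
      (fun p hp => cq_supp f p hp) (mem_Xq.1 hf) hfe'
    obtain ⟨W, hW⟩ := exists_of_cq (Ac F K fun n => n = i + 1) w hw1
    have hW' : cq (Ac F K fun n => n = i + 1) W = w := funext hW
    refine ⟨W, mem_Xq.2 fun p => by rw [hW]; exact hw2 p, ?_⟩
    apply cq_ext
    intro p
    rw [cq_Dq hK hE0 h21, hW', hw3]

end

end Pool.Agent.H93.AB
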