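import Pool.Agent.H93.AB.Cx

/-!
# Project AB: exactness of the mixed complex with trivial coefficients

Filtration of a cycle by the number of elements of `Q` (helper8, helper10): the part of a cycle with the smallest `Q`
consists of simplicial cycles of the links of the `Q`, with values in the invariants.
-/

set_option autoImplicit false
set_option linter.unusedSectionVars false

namespace Pool.Agent.H93.AB

open Finset
open Pool.Agent.H4.Atiyah Pool.Agent.H78.RA Pool.Agent.H3.MX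

section

variable {Γ : Type} [Group Γ]

/-- the right translation by `k` -/
noncomputable def Rt (k : Γ) : BB Γ := Eop () () k⁻¹

theorem Rt_apply (k : Γ) (x : LL Unit Γ) (g : Γ) : Rt k x ((), g) = x ((), g * k) := by
  unfold Rt
  rw [Eop_apply, if_pos rfl, inv_inv]

theorem Kop_Rt {K : Multiset Γ} {k : Γ} (h : ∀ l ∈ K, l * k = k * l) (x : LL Unit Γ) :
    Kop K (Rt k x) = Rt k (Kop K x) := by
  ext ⟨-, g⟩
  rw [Kop_apply, Rt_apply, Kop_apply]
  congr 1
  refine Multiset.map_congr rfl fun l hl => ?_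
  rw [Rt_apply, mul_assoc, h l hl, ← mul_assoc]

theorem Rt_Kop {K : Multiset Γ} {k : Γ} (h : K.map (fun l => k * l) = K) (x : LL Unit Γ) :
    Rt k (Kop K x) = Kop K x := by
  ext ⟨-, g⟩
  rw [Rt_apply, Kop_apply, Kop_apply]
  conv_rhs => rw [← h, Multiset.map_map]
  congr 1
  refine Multiset.map_congr rfl fun l _ => ?_
  rw [Function.comp_apply, mul_assoc]

theorem Kop_sum_Rt (K : Multiset Γ) (x : LL Unit Γ) : Kop K x = (K.map fun k => Rt k x).sum := by
  induction K using Multiset.induction_on with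
  | empty =>
    rw [Kop_zero, Multiset.map_zero, Multiset.sum_zero]
    rfl
  | cons h K ih =>
    rw [Kop_cons, Multiset.map_cons, Multiset.sum_cons, ← ih]
    rfl

/-- the sums over `K` commute with an additive map which commutes with the translations -/
theorem map_Kop (φ : LL Unit Γ →+ LL Unit Γ) (K : Multiset Γ)
    (h : ∀ k ∈ K, ∀ x, φ (Rt k x) = Rt k (φ x)) (x : LL Unit Γ) : φ (Kop K x) = Kop K (φ x) := by
  rw [Kop_sum_Rt, Kop_sum_Rt, map_multiset_sum, Multiset.map_map]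
  congr 1
  refine Multiset.map_congr rfl fun k hk => ?_
  rw [Function.comp_apply, h k hk]

theorem Kop_Kop {K L : Multiset Γ} (h : ∀ k ∈ K, ∀ l ∈ L, k * l = l * k) (x : LL Unit Γ) :
    Kop K (Kop L x) = Kop L (Kop K x) :=
  map_Kop ((Kop K : BB Γ) : LL Unit Γ →+ LL Unit Γ) L
    (fun l hl x => Kop_Rt (fun k hk => h k hk l hl) x) x

end

section

open Classical

variable {Y : Type} [Fintype Y] {Γ : Type} [Group Γ]

/-- the invariants under the `Kf y`, `y ∈ Q` -/
noncomputable def VQ (Kf : Y → Multiset Γ) (Q : Finset Y) : Submodule ℂ (LL Unit Γ) :=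
  ⨅ (y : Y) (_ : y ∈ Q) (k : Γ) (_ : k ∈ Kf y), kr (Rt k - 1)

theorem mem_VQ {Kf : Y → Multiset Γ} {Q : Finset Y} {x : LL Unit Γ} :
    x ∈ VQ Kf Q ↔ ∀ y ∈ Q, ∀ k ∈ Kf y, Rt k x = x := by
  unfold VQ
  simp only [Submodule.mem_iInf, mem_kr]
  constructor
  · intro h y hy k hk
    have h1 : Rt k x - x = 0 := h y hy k hk
    exact sub_eq_zero.1 h1
  · intro h y hy k hk
    show Rt k x - x = 0
    exact sub_eq_zero.2 (h y hy k hk)

/-- the boundary preserves the invariants -/
theorem dF_inv {ν : Y → ℕ} {N : Finset Y → Y → BB Γ} {F : Y → Prop} {K : Finset Y → Prop}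
    (hK : ∀ σ τ, τ ⊆ σ → K σ → K τ) {Kf : Y → Multiset Γ}
    (hgrp : ∀ y, ∀ k ∈ Kf y, (Kf y).map (fun l => k * l) = Kf y)
    (hcom : ∀ y z, y ≠ z → K {y, z} → ∀ k ∈ Kf y, ∀ l ∈ Kf z, k * l = l * k)
    (hRN : ∀ τ y z, y ∉ τ → z ∉ τ → z ≠ y → K (insert z (insert y τ)) → ∀ k ∈ Kf z, ∀ x,
      Rt k (N τ y x) = N τ y (Rt k x))
    {f : Finset Y × Finset Y → LL Unit Γ} (hf : ∀ p, f p ≠ 0 → Al F K p)
    (hf2 : ∀ p, f p ∈ VQ Kf p.1) (p : Finset Y × Finset Y) :
    dF ν (fun y => Kop (Kf y)) N f p ∈ VQ Kf p.1 := by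
  refine Submodule.sum_mem _ fun y hy => ?_
  refine Submodule.smul_of_tower_mem _ _ ?_
  have hy' := mem_compl.1 hy
  by_cases h0 : f (fc y p) = 0
  · rw [h0, map_zero]
    exact Submodule.zero_mem _
  have hAl := hf _ h0
  have h2 := hf2 (fc y p)
  have hKy := k_of_fc hK hAl
  rw [mem_VQ] at h2 ⊢
  intro z hz k hk
  unfold Ty
  by_cases hyQ : y ∈ p.1
  · rw [if_pos hyQ]
    show Rt k (-(Kop (Kf y) (f (fc y p)))) = -(Kop (Kf y) (f (fc y p)))
    rw [map_neg]
    congr 1
    by_cases hzy : z = y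
    · subst hzy
      exact Rt_Kop (hgrp z k hk) _
    · rw [← Kop_Rt (fun l hl => ?_), h2 z (mem_erase.2 ⟨hzy, hz⟩) k hk]
      refine hcom y z (Ne.symm hzy) (hK _ _ ?_ hKy) l hl k hk
      intro w hw
      rcases mem_insert.1 hw with rfl | hw
      · exact mem_insert_self _ _
      · rw [mem_singleton] at hw
        subst hw
        exact mem_insert_of_mem (mem_union_left _ hz)
  · rw [if_neg hyQ]
    have hzy : z ≠ y := fun h => hyQ (h ▸ hz)
    have hd := hAl.2.1
    have hz1 : z ∈ (fc y p).1 := mem_erase.2 ⟨hzy, hz⟩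
    have hzσ : z ∉ p.2 := fun h => disjoint_left.1 hd hz1 (mem_insert_of_mem h)
    rw [hRN p.2 y z hy' hzσ hzy (hK _ _ ?_ hKy) k hk, h2 z hz1 k hk]
    intro w hw
    rcases mem_insert.1 hw with rfl | hw
    · exact mem_insert_of_mem (mem_union_left _ hz)
    · rcases mem_insert.1 hw with rfl | hw
      · exact mem_insert_self _ _
      · exact mem_insert_of_mem (mem_union_right _ hw)

/-- the link of `Q` -/
def Lk (K : Finset Y → Prop) (Q : Finset Y) (j : ℕ) (σ : Finset Y) : Prop :=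
  Disjoint Q σ ∧ K (Q ∪ σ) ∧ σ.card = j

private theorem tri_aux {ν : Y → ℕ} (hν : Function.Injective ν) {F : Y → Prop}
    {K : Finset Y → Prop} (hK : ∀ σ τ, τ ⊆ σ → K σ → K τ) {Kf : Y → Multiset Γ}
    (hF : ∀ y, ¬ F y → Kf y = 0)
    (hgrp : ∀ y, ∀ k ∈ Kf y, (Kf y).map (fun l => k * l) = Kf y)
    (hcom : ∀ y z, y ≠ z → K {y, z} → ∀ k ∈ Kf y, ∀ l ∈ Kf z, k * l = l * k) {i : ℕ}
    (hex : ∀ Q : Finset Y, (∀ y ∈ Q, F y) → K Q → Ex ℂ ν (Lk K Q i) (Lk K Q (i + 1))) (n : ℕ) :
    ∀ a, a + n = Fintype.card Y + 1 → ∀ f : Finset Y × Finset Y → LL Unit Γ,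
    (∀ p, f p ≠ 0 → Al F K p ∧ p.2.card = i) → (∀ p, f p ∈ VQ Kf p.1) →
    (∀ p, dF ν (fun y => Kop (Kf y)) (fun _ _ => 1) f p = 0) → (∀ p, f p ≠ 0 → a ≤ p.1.card) →
    ∃ w : Finset Y × Finset Y → LL Unit Γ, (∀ p, w p ≠ 0 → Al F K p ∧ p.2.card = i + 1) ∧
      (∀ p, w p ∈ VQ Kf p.1) ∧ ∀ p, dF ν (fun y => Kop (Kf y)) (fun _ _ => 1) w p = f p := by
  have hE0 : ∀ y, ¬ F y → (Kop (Kf y) : BB Γ) = 0 := fun y hy => by rw [hF y hy, Kop_zero]
  have hz : ∀ p, dF ν (fun y => Kop (Kf y)) (fun _ _ => (1 : BB Γ))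
      (fun _ => (0 : LL Unit Γ)) p = 0 := by
    intro p
    unfold dF
    exact sum_eq_zero fun y _ => by rw [map_zero, smul_zero]
  have hEE : ∀ y z, y ≠ z → K {y, z} → ∀ x : LL Unit Γ, (Kop (Kf y) : BB Γ) (Kop (Kf z) x) =
      Kop (Kf z) (Kop (Kf y) x) := fun y z hyz hyzK x => Kop_Kop (hcom y z hyz hyzK) x
  have hRN : ∀ (τ : Finset Y) (y z : Y), y ∉ τ → z ∉ τ → z ≠ y → K (insert z (insert y τ)) →
      ∀ k ∈ Kf z, ∀ x : LL Unit Γ, Rt k ((1 : BB Γ) x) = (1 : BB Γ) (Rt k x) :=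
    fun _ _ _ _ _ _ _ _ _ _ => rfl
  induction n with
  | zero =>
    intro a ha f hf1 hf2 hf3 hf4
    have h0 : ∀ p, f p = 0 := by
      intro p
      by_contra h
      have h1 := hf4 p h
      have h2 := card_le_univ p.1
      omega
    exact ⟨fun _ => 0, fun p h => absurd rfl h, fun p => Submodule.zero_mem _, fun p => by
      rw [hz, h0]⟩
  | succ n ih =>
    intro a ha f hf1 hf2 hf3 hf4
    -- the simplicial boundary of a component
    have hcmp : ∀ (g : Finset Y × Finset Y → LL Unit Γ) (Q σ : Finset Y), Q.card = a →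
        (∀ p, g p ≠ 0 → Disjoint p.1 p.2) → (∀ p, p.1.card < a → g p = 0) →
        dF ν (fun y => Kop (Kf y)) (fun _ _ => 1) g (Q, σ) = bd ν (fun σ => g (Q, σ)) σ := by
      intro g Q σ hQ hg1 hg2
      unfold dF bd
      refine sum_congr rfl fun y _ => ?_
      beta_reduce
      congr 1
      unfold Ty fc
      beta_reduce
      by_cases hy : y ∈ Q
      · have h1 : g (Q.erase y, insert y σ) = 0 := by
          apply hg2
          show (Q.erase y).card < a
          rw [card_erase_of_mem hy]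
          have := card_pos.2 ⟨y, hy⟩
          omega
        have h2 : g (Q, insert y σ) = 0 := by
          by_contra h
          exact disjoint_left.1 (hg1 _ h) hy (mem_insert_self _ _)
        rw [h2, if_pos hy]
        show -(Kop (Kf y) (g (Q.erase y, insert y σ))) = 0
        rw [h1, map_zero, neg_zero]
      · rw [if_neg hy, erase_eq_of_notMem hy]
        rfl
    have hflow : ∀ p, p.1.card < a → f p = 0 := by
      intro p hp
      by_contra h
      have := hf4 p h
      omega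
    -- fill the components with `a` elements
    have hfill : ∀ Q : Finset Y, ∃ y : Finset Y → LL Unit Γ, Q.card = a →
        (∀ σ, y σ ∈ VQ Kf Q) ∧ (∀ σ, y σ ≠ 0 → (∀ u ∈ Q, F u) ∧ Lk K Q (i + 1) σ) ∧
        ∀ σ, bd ν y σ = f (Q, σ) := by
      intro Q
      by_cases hQ : Q.card = a
      swap
      · exact ⟨fun _ => 0, fun h => absurd h hQ⟩
      by_cases hQ2 : (∀ y ∈ Q, F y) ∧ K Q
      · obtain ⟨y, hy1, hy2, hy3⟩ := Pool.Agent.H65.BU.ex_coeff (hex Q hQ2.1 hQ2.2) (fun σ => f (Q, σ))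
          (fun σ hσ => ⟨(hf1 _ hσ).1.2.1, (hf1 _ hσ).1.2.2, (hf1 _ hσ).2⟩) (by
            funext σ
            rw [← hcmp f Q σ hQ (fun p h => (hf1 p h).1.2.1) hflow]
            exact hf3 _)
        refine ⟨y, fun _ => ⟨fun σ => ?_, fun σ hσ => ⟨hQ2.1, hy2 σ hσ⟩, fun σ => by rw [hy3]⟩⟩
        have hle : Submodule.span ℂ (Set.range fun σ => f (Q, σ)) ≤ VQ Kf Q := by
          rw [Submodule.span_le]
          rintro _ ⟨τ, rfl⟩
          exact hf2 (Q, τ)
        exact hle (hy1 σ)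
      · have h0 : ∀ σ, f (Q, σ) = 0 := by
          intro σ
          by_contra h
          have h1 := (hf1 _ h).1
          exact hQ2 ⟨h1.1, hK _ _ subset_union_left h1.2.2⟩
        refine ⟨fun _ => 0, fun _ => ⟨fun σ => Submodule.zero_mem _, fun σ h => absurd rfl h,
          fun σ => ?_⟩⟩
        rw [h0]
        unfold bd
        exact sum_eq_zero fun _ _ => smul_zero _
    choose y hy using hfill
    let w0 : Finset Y × Finset Y → LL Unit Γ := fun p => if p.1.card = a then y p.1 p.2 else 0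
    have hw01 : ∀ p, w0 p ≠ 0 → Al F K p ∧ p.2.card = i + 1 := by
      intro p hp
      by_cases hpa : p.1.card = a
      · have h1 : w0 p = y p.1 p.2 := if_pos hpa
        rw [h1] at hp
        obtain ⟨h2, h3, h4, h5⟩ := (hy p.1 hpa).2.1 p.2 hp
        exact ⟨⟨h2, h3, h4⟩, h5⟩
      · exact absurd (if_neg hpa) hp
    have hw02 : ∀ p, w0 p ∈ VQ Kf p.1 := by
      intro p
      by_cases hpa : p.1.card = a
      · have h1 : w0 p = y p.1 p.2 := if_pos hpa
        rw [h1]
        exact (hy p.1 hpa).1 p.2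
      · have h1 : w0 p = 0 := if_neg hpa
        rw [h1]
        exact Submodule.zero_mem _
    have hw03 : ∀ p, p.1.card < a → w0 p = 0 := fun p hp => if_neg (by omega)
    -- the rest
    obtain ⟨w, hw1, hw2, hw3⟩ := ih (a + 1) (by omega)
      (fun p => f p - dF ν (fun y => Kop (Kf y)) (fun _ _ => 1) w0 p) (fun p hp => by
        by_cases h1 : f p = 0
        · have h2 : dF ν (fun y => Kop (Kf y)) (fun _ _ => 1) w0 p ≠ 0 := by
            intro h3
            apply hp
            rw [h1, h3, sub_zero]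
          exact dF_supp hK hE0 (c := fun n => n = i + 1) (c' := fun n => n = i)
            (fun n hn => by omega) hw01 p h2
        · exact hf1 p h1)
      (fun p => Submodule.sub_mem _ (hf2 p)
        (dF_inv hK hgrp hcom hRN (fun p h => (hw01 p h).1) hw02 p))
      (fun p => by
        rw [dF_sub, hf3, dF_dF hν hK hEE (fun p h => (hw01 p h).1), sub_zero])
      (fun p hp => by
        by_contra h
        have h4 : p.1.card ≤ a := by omega
        apply hp
        rcases lt_or_eq_of_le h4 with h5 | h5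
        · rw [hflow p h5, zero_sub, neg_eq_zero]
          unfold dF
          refine sum_eq_zero fun u _ => ?_
          rw [hw03 (fc u p), map_zero, smul_zero]
          exact lt_of_le_of_lt (card_le_card (erase_subset _ _)) h5
        · obtain ⟨Q, σ⟩ := p
          rw [hcmp w0 Q σ h5 (fun p h => (hw01 p h).1.2.1) hw03]
          have h6 : (fun σ => w0 (Q, σ)) = y Q := by
            funext τ
            exact if_pos h5
          rw [h6, (hy Q h5).2.2, sub_self])
    refine ⟨fun p => w0 p + w p, fun p hp => ?_, fun p => Submodule.add_mem _ (hw02 p) (hw2 p),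
      fun p => ?_⟩
    · by_cases h1 : w0 p = 0
      · refine hw1 p fun h2 => hp ?_
        beta_reduce
        rw [h1, h2, add_zero]
      · exact hw01 p h1
    · rw [dF_add, hw3]
      abel

/-- **Exactness with trivial coefficients**, from the exactness of the links. -/
theorem exact_tri {ν : Y → ℕ} (hν : Function.Injective ν) {F : Y → Prop}
    {K : Finset Y → Prop} (hK : ∀ σ τ, τ ⊆ σ → K σ → K τ) {Kf : Y → Multiset Γ}
    (hF : ∀ y, ¬ F y → Kf y = 0)
    (hgrp : ∀ y, ∀ k ∈ Kf y, (Kf y).map (fun l => k * l) = Kf y)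
    (hcom : ∀ y z, y ≠ z → K {y, z} → ∀ k ∈ Kf y, ∀ l ∈ Kf z, k * l = l * k) {i : ℕ}
    (hex : ∀ Q : Finset Y, (∀ y ∈ Q, F y) → K Q → Ex ℂ ν (Lk K Q i) (Lk K Q (i + 1)))
    (f : Finset Y × Finset Y → LL Unit Γ) (hf1 : ∀ p, f p ≠ 0 → Al F K p ∧ p.2.card = i)
    (hf2 : ∀ p, f p ∈ VQ Kf p.1)
    (hf3 : ∀ p, dF ν (fun y => Kop (Kf y)) (fun _ _ => 1) f p = 0) :
    ∃ w : Finset Y × Finset Y → LL Unit Γ, (∀ p, w p ≠ 0 → Al F K p ∧ p.2.card = i + 1) ∧
      (∀ p, w p ∈ VQ Kf p.1) ∧ ∀ p, dF ν (fun y => Kop (Kf y)) (fun _ _ => 1) w p = f p :=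
  tri_aux hν hK hF hgrp hcom hex (Fintype.card Y + 1) 0 (by omega) f hf1 hf2 hf3
    fun _ _ => Nat.zero_le _

end

end Pool.Agent.H93.AB
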