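import Pool.Agent.H93.AA.L2
import Pool.Agent.H93.AB.Tri

/-!
# Project AB: the operators of the Artin directions

`φ : BG M →* A` is a homomorphism of the Artin group; `tS φ T J` is the operator of the image of `β_{T,J}`.
-/

set_option autoImplicit false
set_option linter.unusedSectionVars false

open Finset

namespace Pool.Agent.H93.AB

open Pool.Agent.H4.FC Pool.Agent.H78.RC Pool.Agent.H78.RA Pool.Agent.H4.Atiyah H42.NU
  Pool.Agent.H93.AA

variable {S : Type} [Fintype S] [DecidableEq S] {M : CoxeterMatrix S} {A : Type} [Group A]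

/-- the homomorphism of the group rings -/
noncomputable def Ph (φ : BG M →* A) : MonoidAlgebra ℂ (BG M) →ₐ[ℂ] MonoidAlgebra ℂ A :=
  MonoidAlgebra.lift ℂ (MonoidAlgebra ℂ A) (BG M) ((MonoidAlgebra.of ℂ A).comp φ)

theorem Ph_of (φ : BG M →* A) (g : BG M) :
    Ph φ (MonoidAlgebra.of ℂ (BG M) g) = MonoidAlgebra.of ℂ A (φ g) := by
  unfold Ph
  rw [MonoidAlgebra.lift_of]
  rfl

/-- the operator of the image of `β_{T,J}` -/
noncomputable def tS (φ : BG M →* A) (T J : Finset S) : BB A := Rop (Ph φ (bC M T J))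

theorem Rop_smul' (c : ℂ) (a : MonoidAlgebra ℂ A) : Rop (c • a) = c • Rop a := by
  unfold Rop
  rw [map_smul]
  rfl

theorem Rop_of (g : A) (x : LL Unit A) (h : A) :
    Rop (MonoidAlgebra.of ℂ A g) x ((), h) = x ((), h * g⁻¹) := by
  rw [Rop_apply, MonoidAlgebra.of_apply, MonoidAlgebra.coeff_single,
    Finsupp.sum_single_index (zero_mul _), one_mul]

theorem eqv_tS (φ : BG M →* A) (T J : Finset S) : Eqv (tS φ T J) := eqv_Rop _

theorem tS_apply (φ : BG M →* A) (T J : Finset S) (x : LL Unit A) (g : A) :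
    ev g (tS φ T J x) = ∑ w ∈ mn M T J, (-1 : ℂ) ^ M.toCoxeterSystem.length w *
      ev (g * (φ (lft M w))⁻¹) x := by
  unfold tS
  rw [bC_eq, map_sum, Rop_sum, _root_.sum_apply, map_sum]
  refine sum_congr rfl fun w _ => ?_
  rw [map_smul, Rop_smul', Ph_of]
  show ((-1 : ℂ) ^ M.toCoxeterSystem.length w • Rop (MonoidAlgebra.of ℂ A (φ (lft M w))) x :
    LL Unit A) ((), g) = _
  rw [lp_smul_apply, Rop_of]
  rfl

theorem tS_self (φ : BG M →* A) {T : Finset S} (hT : Sph M T) : tS φ T T = 1 := by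
  unfold tS
  rw [bC_self M hT, map_one]
  unfold Rop
  rw [map_one]
  rfl

theorem tS_mul (φ : BG M →* A) {T J I : Finset S} (hT : Sph M T) (hJ : J ⊆ T) (hI : I ⊆ J) :
    tS φ T I = tS φ J I * tS φ T J := by
  unfold tS
  rw [← Rop_mul, ← map_mul, bC_mul M hT hJ hI]

/-- the operators `β_{σ,∅}` are injective -/
theorem tS_inj (φ : BG M →* A) (σ : Finset S) (hσ : Sph M σ)
    (hord : ∀ T ⊆ σ, T.Nonempty → ∀ n : ℕ, 0 < n → φ (dlt M T) ^ n ≠ 1) (x : LL Unit A)
    (hx : tS φ σ ∅ x = 0) : x = 0 := by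
  classical
  induction σ using Finset.strongInduction generalizing x with
  | H σ ih =>
    have h1 : ∀ J ∈ σ.powerset, J ≠ σ → tS φ σ J x = 0 := by
      intro J hJ hne
      have hJ' : J ⊆ σ := Finset.mem_powerset.1 hJ
      apply ih J (lt_of_le_of_ne hJ' hne) (hσ.mono hJ') (fun T hT => hord T (hT.trans hJ'))
      rw [tS_mul φ hσ hJ' (Finset.empty_subset J)] at hx
      exact hx
    have h2 : (∑ J ∈ σ.powerset, (-1 : ℤ) ^ J.card • tS φ σ J) x =
        ((-1 : ℤ) ^ M.toCoxeterSystem.length (lw M σ) •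
          Rop (MonoidAlgebra.of ℂ A (φ (dlt M σ)))) x := by
      have h3 := congrArg (fun a => Rop (Ph φ a)) (bC_alt M hσ)
      simp only [map_sum, map_zsmul, Rop_sum, Rop_zsmul, Ph_of] at h3
      have h4 := congrArg (fun B : BB A => B x) h3
      exact h4
    rw [_root_.sum_apply, Finset.sum_eq_single σ] at h2
    · rw [tS_self φ hσ] at h2
      have h4 : ∀ g, ‖x ((), g * (φ (dlt M σ))⁻¹)‖ = ‖x ((), g)‖ := by
        intro g
        have h5 : ‖ev g (((-1 : ℤ) ^ σ.card • (1 : BB A)) x)‖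
            = ‖ev g (((-1 : ℤ) ^ M.toCoxeterSystem.length (lw M σ) •
            Rop (MonoidAlgebra.of ℂ A (φ (dlt M σ)))) x)‖ := by rw [h2]
        have h6 : ev g (((-1 : ℤ) ^ σ.card • (1 : BB A)) x)
            = (((-1 : ℤ) ^ σ.card : ℤ) : ℂ) * x ((), g) := by
          show ev g ((-1 : ℤ) ^ σ.card • x) = _
          rw [ev_smul]
          rfl
        have h7 : ev g (((-1 : ℤ) ^ M.toCoxeterSystem.length (lw M σ) •
            Rop (MonoidAlgebra.of ℂ A (φ (dlt M σ)))) x)
            = (((-1 : ℤ) ^ M.toCoxeterSystem.length (lw M σ) : ℤ) : ℂ)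
              * x ((), g * (φ (dlt M σ))⁻¹) := by
          show ev g ((-1 : ℤ) ^ M.toCoxeterSystem.length (lw M σ) •
            Rop (MonoidAlgebra.of ℂ A (φ (dlt M σ))) x) = _
          rw [ev_smul]
          congr 1
          exact Rop_of _ x g
        rw [h6, h7, norm_mul, norm_mul] at h5
        simpa using h5.symm
      rcases σ.eq_empty_or_nonempty with he | hne
      · subst he
        rw [tS_self φ hσ] at hx
        exact hx
      · have h8 := zero_of_norm (φ (dlt M σ)) (hord σ (Subset.refl σ) hne) (fun g => x ((), g)) (by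
          have h9 : Summable fun p : Unit × A => ‖x p‖ ^ 2 := (memlp_iff _).1 (lp.memℓp _)
          exact h9.comp_injective (i := fun g : A => ((), g))
            (fun a b h => (Prod.ext_iff.1 h).2)) h4
        apply ev_ext
        intro g
        exact congrFun h8 g
    · intro J hJ hne
      show (-1 : ℤ) ^ J.card • tS φ σ J x = 0
      rw [h1 J hJ hne, smul_zero]
    · intro h
      exact absurd (Finset.mem_powerset_self σ) h

/-- the operators `β_{T,J}` commute with the translations by elements which commute with the generators in `T` -/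
theorem Rt_tS (φ : BG M →* A) {T J : Finset S} (k : A)
    (hk : ∀ w ∈ mn M T J, φ (lft M w) * k = k * φ (lft M w)) (x : LL Unit A) :
    Rt k (tS φ T J x) = tS φ T J (Rt k x) := by
  apply ev_ext
  intro g
  rw [tS_apply]
  show (Rt k (tS φ T J x)) ((), g) = _
  rw [Rt_apply]
  show ev (g * k) (tS φ T J x) = _
  rw [tS_apply]
  refine sum_congr rfl fun w hw => ?_
  congr 1
  show x ((), g * k * (φ (lft M w))⁻¹) = Rt k x ((), g * (φ (lft M w))⁻¹)
  rw [Rt_apply]
  have h1 : k * (φ (lft M w))⁻¹ = (φ (lft M w))⁻¹ * k := by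
    rw [mul_inv_eq_iff_eq_mul, mul_assoc, ← hk w hw, inv_mul_cancel_left]
  rw [mul_assoc, h1, ← mul_assoc]

end Pool.Agent.H93.AB
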