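import Pool.Agent.H93.AB.Gen
import Pool.Agent.H3.MX.Theta
import Pool.Agent.H65.BU.Ler

/-!
# Project AB: the mixed complex, operator form

`Y` the letters, `F` the finite ones. The cells are the pairs `p = (Q, σ)`; the boundary in the direction `y` is
`- E y` from `(Q \ y, σ ∪ y)` if `y ∈ Q`, and `N σ y` from `(Q, σ ∪ y)` otherwise. If all `N σ y` are 1, then a cycle is
filled by induction on the number of elements of `Q` (helper8, helper10), using the links of the `Q`.
-/

set_option autoImplicit false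
set_option linter.unusedSectionVars false

namespace Pool.Agent.H93.AB

open Finset
open Pool.Agent.H4.Atiyah Pool.Agent.H78.RA Pool.Agent.H3.MX

section

open Classical

variable {Y : Type} [Fintype Y] {Γ : Type} [Group Γ]

/-- the cell whose face in the direction `y` is `p` -/
noncomputable def fc (y : Y) (p : Finset Y × Finset Y) : Finset Y × Finset Y :=
  (p.1.erase y, insert y p.2)

/-- the operator of the direction `y` -/
noncomputable def Ty (E : Y → BB Γ) (N : Finset Y → Y → BB Γ) (y : Y) (p : Finset Y × Finset Y) :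
    BB Γ := if y ∈ p.1 then -E y else N p.2 y

/-- the boundary -/
noncomputable def dF (ν : Y → ℕ) (E : Y → BB Γ) (N : Finset Y → Y → BB Γ)
    (f : Finset Y × Finset Y → LL Unit Γ) (p : Finset Y × Finset Y) : LL Unit Γ :=
  ∑ y ∈ (p.2)ᶜ, sg ν p.2 y • Ty E N y p (f (fc y p))

/-- the allowed cells -/
def Al (F : Y → Prop) (K : Finset Y → Prop) (p : Finset Y × Finset Y) : Prop :=
  (∀ y ∈ p.1, F y) ∧ Disjoint p.1 p.2 ∧ K (p.1 ∪ p.2)

theorem fc_union {y : Y} {p : Finset Y × Finset Y} (h : y ∈ p.1) :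
    (fc y p).1 ∪ (fc y p).2 = p.1 ∪ p.2 := by
  ext u
  simp only [fc, mem_union, mem_erase, mem_insert]
  constructor
  · rintro (h1 | h1 | h1)
    · exact Or.inl h1.2
    · exact Or.inl (h1 ▸ h)
    · exact Or.inr h1
  · rintro (h1 | h1)
    · by_cases huy : u = y
      · exact Or.inr (Or.inl huy)
      · exact Or.inl ⟨huy, h1⟩
    · exact Or.inr (Or.inr h1)

theorem al_of_fc {F : Y → Prop} {K : Finset Y → Prop} (hK : ∀ σ τ, τ ⊆ σ → K σ → K τ) {y : Y}
    {p : Finset Y × Finset Y} (hy : y ∉ p.2) (hF : y ∈ p.1 → F y) (h : Al F K (fc y p)) :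
    Al F K p := by
  obtain ⟨h1, h2, h3⟩ := h
  have hd : Disjoint p.1 p.2 := by
    rw [disjoint_left] at h2 ⊢
    intro u hu hu2
    have huy : u ≠ y := fun h => hy (h ▸ hu2)
    exact h2 (mem_erase.2 ⟨huy, hu⟩) (mem_insert_of_mem hu2)
  refine ⟨fun u hu => ?_, hd, ?_⟩
  · by_cases huy : u = y
    · subst huy
      exact hF hu
    · exact h1 u (mem_erase.2 ⟨huy, hu⟩)
  · by_cases hyQ : y ∈ p.1
    · rwa [fc_union hyQ] at h3
    · refine hK _ _ ?_ h3
      unfold fc
      rw [erase_eq_of_notMem hyQ]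
      exact union_subset_union (Subset.refl _) (subset_insert _ _)

/-- the letter of the direction is in the nerve with all letters of the cell -/
theorem k_of_fc {F : Y → Prop} {K : Finset Y → Prop} (hK : ∀ σ τ, τ ⊆ σ → K σ → K τ) {y : Y}
    {p : Finset Y × Finset Y} (h : Al F K (fc y p)) : K (insert y (p.1 ∪ p.2)) := by
  refine hK _ _ ?_ h.2.2
  intro u hu
  rcases mem_insert.1 hu with rfl | hu
  · exact mem_union_right _ (mem_insert_self _ _)
  · by_cases huy : u = y
    · exact mem_union_right _ (huy ▸ mem_insert_self _ _)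
    · rcases mem_union.1 hu with h1 | h1
      · exact mem_union_left _ (mem_erase.2 ⟨huy, h1⟩)
      · exact mem_union_right _ (mem_insert_of_mem h1)

theorem dF_add (ν : Y → ℕ) (E : Y → BB Γ) (N : Finset Y → Y → BB Γ)
    (f g : Finset Y × Finset Y → LL Unit Γ) (p : Finset Y × Finset Y) :
    dF ν E N (fun p => f p + g p) p = dF ν E N f p + dF ν E N g p := by
  unfold dF
  rw [← sum_add_distrib]
  exact sum_congr rfl fun y _ => by rw [map_add, smul_add]

theorem dF_sub (ν : Y → ℕ) (E : Y → BB Γ) (N : Finset Y → Y → BB Γ)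
    (f g : Finset Y × Finset Y → LL Unit Γ) (p : Finset Y × Finset Y) :
    dF ν E N (fun p => f p - g p) p = dF ν E N f p - dF ν E N g p := by
  unfold dF
  rw [← sum_sub_distrib]
  exact sum_congr rfl fun y _ => by rw [map_sub, smul_sub]

/-- the support of the boundary -/
theorem dF_supp {ν : Y → ℕ} {E : Y → BB Γ} {N : Finset Y → Y → BB Γ} {F : Y → Prop}
    {K : Finset Y → Prop} (hK : ∀ σ τ, τ ⊆ σ → K σ → K τ) (hE : ∀ y, ¬ F y → E y = 0)
    {c c' : ℕ → Prop} (hc : ∀ n, c (n + 1) → c' n) {f : Finset Y × Finset Y → LL Unit Γ}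
    (hf : ∀ p, f p ≠ 0 → Al F K p ∧ c p.2.card) (p : Finset Y × Finset Y)
    (h : dF ν E N f p ≠ 0) : Al F K p ∧ c' p.2.card := by
  obtain ⟨y, hy, h1⟩ := exists_ne_zero_of_sum_ne_zero h
  have hy' := mem_compl.1 hy
  have h2 : f (fc y p) ≠ 0 := by
    intro h0
    rw [h0, map_zero, smul_zero] at h1
    exact h1 rfl
  obtain ⟨h3, h4⟩ := hf _ h2
  have h5 : (fc y p).2.card = p.2.card + 1 := card_insert_of_notMem hy'
  rw [h5] at h4
  refine ⟨al_of_fc hK hy' (fun hyQ => ?_) h3, hc _ h4⟩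
  by_contra hF
  apply h1
  unfold Ty
  rw [if_pos hyQ, hE y hF, neg_zero]
  exact smul_zero _

/-- the square of the boundary with all `N σ y` equal to 1 -/
theorem dF_dF {ν : Y → ℕ} (hν : Function.Injective ν) {E : Y → BB Γ} {F : Y → Prop}
    {K : Finset Y → Prop} (hK : ∀ σ τ, τ ⊆ σ → K σ → K τ)
    (hEE : ∀ y z, y ≠ z → K {y, z} → ∀ x, E y (E z x) = E z (E y x))
    {f : Finset Y × Finset Y → LL Unit Γ} (hf : ∀ p, f p ≠ 0 → Al F K p)
    (p : Finset Y × Finset Y) :
    dF ν E (fun _ _ => 1) (dF ν E (fun _ _ => 1) f) p = 0 := by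
  have hT : ∀ y z : Y, z ≠ y → Ty E (fun _ _ => (1 : BB Γ)) z (fc y p) =
      Ty E (fun _ _ => (1 : BB Γ)) z p := by
    intro y z hzy
    unfold Ty
    have h1 : z ∈ (fc y p).1 ↔ z ∈ p.1 := by
      unfold fc
      rw [mem_erase]
      exact ⟨fun h => h.2, fun h => ⟨hzy, h⟩⟩
    by_cases hz : z ∈ p.1
    · rw [if_pos hz, if_pos (h1.2 hz)]
    · rw [if_neg hz, if_neg (fun h => hz (h1.1 h))]
  have hfc : ∀ y z : Y, fc z (fc y p) = fc y (fc z p) := by
    intro y z
    unfold fc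
    rw [erase_right_comm, insert_comm]
  have hsym : ∀ y z : Y, y ≠ z → ∀ x : LL Unit Γ, (x ≠ 0 → K {y, z}) →
      Ty E (fun _ _ => (1 : BB Γ)) y p (Ty E (fun _ _ => (1 : BB Γ)) z p x) =
        Ty E (fun _ _ => (1 : BB Γ)) z p (Ty E (fun _ _ => (1 : BB Γ)) y p x) := by
    intro y z hyz x hx
    by_cases hx0 : x = 0
    · subst hx0
      simp only [map_zero]
    unfold Ty
    by_cases hy : y ∈ p.1
    · by_cases hz : z ∈ p.1
      · rw [if_pos hy, if_pos hz]
        show -(E y (-(E z x))) = -(E z (-(E y x)))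
        rw [map_neg, map_neg, hEE y z hyz (hx hx0)]
      · rw [if_pos hy, if_neg hz]
        rfl
    · by_cases hz : z ∈ p.1
      · rw [if_neg hy, if_pos hz]
        rfl
      · rw [if_neg hy, if_neg hz]
  unfold dF
  have h1 : ∀ y ∈ (p.2)ᶜ, sg ν p.2 y • Ty E (fun _ _ => (1 : BB Γ)) y p
      (∑ z ∈ ((fc y p).2)ᶜ, sg ν (fc y p).2 z • Ty E (fun _ _ => (1 : BB Γ)) z (fc y p)
        (f (fc z (fc y p)))) = ∑ z ∈ (insert y p.2)ᶜ, (sg ν p.2 y * sg ν (insert y p.2) z) •
        Ty E (fun _ _ => (1 : BB Γ)) y p (Ty E (fun _ _ => (1 : BB Γ)) z p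
          (f (fc z (fc y p)))) := by
    intro y _
    rw [map_sum, smul_sum]
    refine sum_congr rfl fun z hz => ?_
    have hzy : z ≠ y := fun h => (mem_compl.1 hz) (h ▸ mem_insert_self _ _)
    rw [map_zsmul, smul_smul, hT y z hzy]
    rfl
  rw [sum_congr rfl h1, sum_sigma']
  apply sum_involution (fun a _ => (⟨a.2, a.1⟩ : (_ : Y) × Y))
  · rintro ⟨v, u⟩ ha
    rw [mem_sigma, mem_compl, mem_compl, mem_insert, not_or] at ha
    obtain ⟨hv, huv, hu⟩ := ha
    show (sg ν p.2 v * sg ν (insert v p.2) u) • Ty E (fun _ _ => (1 : BB Γ)) v p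
        (Ty E (fun _ _ => (1 : BB Γ)) u p (f (fc u (fc v p)))) +
      (sg ν p.2 u * sg ν (insert u p.2) v) • Ty E (fun _ _ => (1 : BB Γ)) u p
        (Ty E (fun _ _ => (1 : BB Γ)) v p (f (fc v (fc u p)))) = 0
    rw [hfc v u, hsym v u (Ne.symm huv) (f (fc v (fc u p))) ?_, ← add_smul, sg_insert ν p.2 u v hv,
      sg_insert ν p.2 v u hu]
    · have hne : ν v ≠ ν u := fun h => huv (hν h).symm
      rcases lt_or_gt_of_ne hne with h | h
      · rw [if_pos h, if_neg (not_lt.2 h.le), show sg ν p.2 v * (sg ν p.2 u * -1)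
          + sg ν p.2 u * (sg ν p.2 v * 1) = 0 by ring, zero_smul]
      · rw [if_neg (not_lt.2 h.le), if_pos h, show sg ν p.2 v * (sg ν p.2 u * 1)
          + sg ν p.2 u * (sg ν p.2 v * -1) = 0 by ring, zero_smul]
    · intro hx
      refine hK _ _ ?_ (hf _ hx).2.2
      intro w hw
      refine mem_union_right _ ?_
      unfold fc
      rcases mem_insert.1 hw with rfl | hw
      · exact mem_insert_self _ _
      · rw [mem_singleton] at hw
        subst hw
        exact mem_insert_of_mem (mem_insert_self _ _)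
  · rintro ⟨v, u⟩ ha _ hc
    rw [mem_sigma, mem_compl, mem_compl, mem_insert, not_or] at ha
    have h2 : u = v := congrArg Sigma.fst hc
    exact ha.2.1 h2
  · rintro ⟨v, u⟩ ha
    rw [mem_sigma, mem_compl, mem_compl, mem_insert, not_or] at ha ⊢
    exact ⟨ha.2.2, fun h => ha.2.1 h.symm, ha.1⟩
  · rintro ⟨v, u⟩ _
    rfl

end

end Pool.Agent.H93.AB
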