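import Pool.Agent.H69.FD.Eul

/-!
# Project AB (MP_ef6a16_nt), local part 1: logarithmic derivatives of power series

`DD = (1 + X) d/dX` on `Ω⟦X⟧` and `dl j g = (DD^(j-1) (DD g / g))(0)`, the `j`-th logarithmic derivative
(`X d/dX` in the variable `1 + X`).

* `dl_mul`, `dl_pow`, `dl_prod` : multiplicativity;
* `dl_congr` : `dl j` only depends on the series modulo `X^(j+1)`;
* `dl_root` : `dl j (c (1+X)^k) = 0` for `j ≥ 2`;
* `dl_lin` : `dl j (α + β (1+X)^r) = - r^j L_(j-1)(-β/α)` for `j ≥ 2`;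
* `dl_aeval` : for a polynomial `P` and a series `y` with `DD y = t y`, `dl j (P(y)) = t^j * lamP j P (y 0)`.
-/

namespace H93AB

open PowerSeries

variable {Ω : Type*} [Field Ω]

/-- `(1 + X) d/dX` -/
noncomputable def DD : Derivation Ω Ω⟦X⟧ Ω⟦X⟧ := (1 + X : Ω⟦X⟧) • PowerSeries.derivative Ω

/-- the `j`-th logarithmic derivative at `X = 0` -/
noncomputable def dl (j : ℕ) (g : Ω⟦X⟧) : Ω := constantCoeff (DD^[j - 1] (DD g * g⁻¹))

theorem DD_apply (g : Ω⟦X⟧) : DD g = (1 + X) * PowerSeries.derivative Ω g := rfl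

theorem DD_mul (g h : Ω⟦X⟧) : DD (g * h) = g * DD h + h * DD g := by
  rw [Derivation.leibniz, smul_eq_mul, smul_eq_mul]

theorem DD_C (c : Ω) : DD (C c) = 0 := by
  have h := (DD (Ω := Ω)).map_algebraMap c
  exact h

theorem DD_one : DD (1 : Ω⟦X⟧) = 0 := Derivation.map_one_eq_zero _

theorem DD_natCast (n : ℕ) : DD (n : Ω⟦X⟧) = 0 := Derivation.map_natCast _ n

theorem DD_pow (g : Ω⟦X⟧) (n : ℕ) : DD (g ^ n) = n * g ^ (n - 1) * DD g := by
  rw [Derivation.leibniz_pow, smul_eq_mul, nsmul_eq_mul, mul_assoc]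

theorem DD_one_add_X : DD (1 + X : Ω⟦X⟧) = 1 + X := by
  rw [DD_apply, map_add, Derivation.map_one_eq_zero, zero_add]
  have : PowerSeries.derivative Ω (X : Ω⟦X⟧) = 1 := by
    exact PowerSeries.derivative_X ..
  rw [this, mul_one]

theorem DD_geom (c : Ω) (k : ℕ) :
    DD (C c * (1 + X : Ω⟦X⟧) ^ k) = (k : Ω⟦X⟧) * (C c * (1 + X) ^ k) := by
  rw [DD_mul, DD_C, mul_zero, add_zero, DD_pow, DD_one_add_X]
  rcases Nat.eq_zero_or_pos k with rfl | hk
  · simp
  · obtain ⟨k, rfl⟩ : ∃ l, k = l + 1 := ⟨k - 1, by omega⟩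
    rw [Nat.add_sub_cancel, pow_succ]
    ring

theorem X_pow_dvd_DD {n : ℕ} {g : Ω⟦X⟧} (h : (X : Ω⟦X⟧) ^ (n + 1) ∣ g) : (X : Ω⟦X⟧) ^ n ∣ DD g := by
  obtain ⟨q, rfl⟩ := h
  rw [DD_mul, DD_pow, Nat.add_sub_cancel]
  refine dvd_add ?_ ?_
  · exact (pow_dvd_pow _ (Nat.le_succ n)).mul_right _
  · refine Dvd.dvd.mul_left ?_ _
    exact ((dvd_refl _).mul_left _).mul_right _

theorem X_pow_dvd_iter {n : ℕ} (k : ℕ) : ∀ {g : Ω⟦X⟧}, (X : Ω⟦X⟧) ^ (n + k) ∣ g →
    (X : Ω⟦X⟧) ^ n ∣ DD^[k] g := by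
  induction k with
  | zero => intro g h; simpa using h
  | succ k ih =>
    intro g h
    rw [Function.iterate_succ_apply]
    exact ih (X_pow_dvd_DD (by rwa [← add_assoc] at h))

theorem iter_add (k : ℕ) (g h : Ω⟦X⟧) : DD^[k] (g + h) = DD^[k] g + DD^[k] h := by
  induction k generalizing g h with
  | zero => rfl
  | succ k ih => rw [Function.iterate_succ_apply, Function.iterate_succ_apply,
      Function.iterate_succ_apply, map_add, ih]

theorem iter_sub (k : ℕ) (g h : Ω⟦X⟧) : DD^[k] (g - h) = DD^[k] g - DD^[k] h := by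
  induction k generalizing g h with
  | zero => rfl
  | succ k ih => rw [Function.iterate_succ_apply, Function.iterate_succ_apply,
      Function.iterate_succ_apply, map_sub, ih]

theorem iter_zero (k : ℕ) : DD^[k] (0 : Ω⟦X⟧) = 0 := by
  induction k with
  | zero => rfl
  | succ k ih => rw [Function.iterate_succ_apply, map_zero, ih]

/-- multiplicativity -/
theorem dl_mul (j : ℕ) {g h : Ω⟦X⟧} (hg : constantCoeff g ≠ 0) (hh : constantCoeff h ≠ 0) :
    dl j (g * h) = dl j g + dl j h := by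
  unfold dl
  rw [← map_add, ← iter_add]
  congr 2
  rw [DD_mul, PowerSeries.mul_inv_rev]
  have h1 : g * g⁻¹ = 1 := PowerSeries.mul_inv_cancel g hg
  have h2 : h * h⁻¹ = 1 := PowerSeries.mul_inv_cancel h hh
  calc (g * DD h + h * DD g) * (h⁻¹ * g⁻¹)
      = DD h * h⁻¹ * (g * g⁻¹) + DD g * g⁻¹ * (h * h⁻¹) := by ring
    _ = _ := by rw [h1, h2]; ring

theorem dl_C (j : ℕ) (c : Ω) : dl j (C c) = 0 := by
  unfold dl
  rw [DD_C, zero_mul, iter_zero, map_zero]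

theorem dl_one (j : ℕ) : dl j (1 : Ω⟦X⟧) = 0 := by
  have := dl_C j (1 : Ω)
  rwa [map_one] at this

theorem dl_pow (j : ℕ) {g : Ω⟦X⟧} (hg : constantCoeff g ≠ 0) (n : ℕ) :
    dl j (g ^ n) = n * dl j g := by
  induction n with
  | zero => rw [pow_zero, dl_one, Nat.cast_zero, zero_mul]
  | succ n ih =>
    rw [pow_succ, dl_mul j (by rw [map_pow]; exact pow_ne_zero _ hg) hg, ih]
    push_cast
    ring

theorem dl_prod {ι : Type*} (j : ℕ) (s : Finset ι) (g : ι → Ω⟦X⟧)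
    (hg : ∀ i ∈ s, constantCoeff (g i) ≠ 0) : dl j (∏ i ∈ s, g i) = ∑ i ∈ s, dl j (g i) := by
  classical
  induction s using Finset.induction_on with
  | empty => rw [Finset.prod_empty, Finset.sum_empty, dl_one]
  | insert a s ha ih =>
    rw [Finset.prod_insert ha, Finset.sum_insert ha,
      dl_mul j (hg a (Finset.mem_insert_self a s)) ?_,
      ih fun i hi => hg i (Finset.mem_insert_of_mem hi)]
    rw [map_prod]
    exact Finset.prod_ne_zero_iff.2 fun i hi => hg i (Finset.mem_insert_of_mem hi)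

/-- `dl j` only depends on the series modulo `X^(j+1)` -/
theorem dl_congr {j n : ℕ} (hj : 1 ≤ j) (hn : j + 1 ≤ n) {g h : Ω⟦X⟧} (hg : constantCoeff g ≠ 0)
    (hh : constantCoeff h ≠ 0) (hd : (X : Ω⟦X⟧) ^ n ∣ g - h) : dl j g = dl j h := by
  have h1 : g * g⁻¹ = 1 := PowerSeries.mul_inv_cancel g hg
  have h2 : h * h⁻¹ = 1 := PowerSeries.mul_inv_cancel h hh
  have e : DD g * g⁻¹ - DD h * h⁻¹ = (DD (g - h) * h - DD h * (g - h)) * (g⁻¹ * h⁻¹) := by
    rw [map_sub]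
    calc DD g * g⁻¹ - DD h * h⁻¹ = DD g * g⁻¹ * (h * h⁻¹) - DD h * h⁻¹ * (g * g⁻¹) := by
          rw [h1, h2]; ring
      _ = _ := by ring
  have hd' : (X : Ω⟦X⟧) ^ (1 + (j - 1) + 1) ∣ g - h := (pow_dvd_pow _ (by omega)).trans hd
  have h3 : (X : Ω⟦X⟧) ^ (1 + (j - 1)) ∣ DD g * g⁻¹ - DD h * h⁻¹ := by
    rw [e]
    refine Dvd.dvd.mul_right (dvd_sub ?_ ?_) _
    · exact (X_pow_dvd_DD hd').mul_right _
    · exact ((pow_dvd_pow _ (Nat.le_succ _)).trans hd').mul_left _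
  have h4 := X_pow_dvd_iter (j - 1) h3
  rw [pow_one, iter_sub, PowerSeries.X_dvd_iff, map_sub, sub_eq_zero] at h4
  exact h4

/-- constants times powers of `1 + X` are killed -/
theorem dl_geom {j : ℕ} (hj : 2 ≤ j) {c : Ω} (hc : c ≠ 0) (k : ℕ) :
    dl j (C c * (1 + X : Ω⟦X⟧) ^ k) = 0 := by
  unfold dl
  have h0 : constantCoeff (C c * (1 + X : Ω⟦X⟧) ^ k) ≠ 0 := by
    simp [hc]
  rw [DD_geom, mul_assoc, PowerSeries.mul_inv_cancel _ h0, mul_one]
  obtain ⟨i, rfl⟩ : ∃ i, j = i + 2 := ⟨j - 2, by omega⟩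
  rw [show i + 2 - 1 = i + 1 by omega, Function.iterate_succ_apply, DD_natCast, iter_zero, map_zero]

theorem map_DD_aeval {P : Polynomial Ω} {y : Ω⟦X⟧} {t : Ω⟦X⟧} (hy : DD y = t * y) :
    DD (Polynomial.aeval y P) = t * Polynomial.aeval y (Polynomial.X * Polynomial.derivative P) := by
  rw [Derivation.map_aeval, smul_eq_mul, hy, map_mul, Polynomial.aeval_X]
  ring

theorem DD_aevalInt {P : Polynomial ℤ} {y : Ω⟦X⟧} {t : Ω⟦X⟧} (hy : DD y = t * y) :
    DD (Polynomial.aeval y P) = t * y * Polynomial.aeval y (Polynomial.derivative P) := by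
  have h := (DD (Ω := Ω).restrictScalars ℤ).map_aeval P y
  have h1 : (DD (Ω := Ω).restrictScalars ℤ) y = t * y := hy
  rw [h1, smul_eq_mul] at h
  have h2 : DD (Polynomial.aeval y P) = _ := h
  rw [h2]
  ring

theorem DD_inv {u : Ω⟦X⟧} (hu : constantCoeff u ≠ 0) : DD u⁻¹ = -(DD u * (u⁻¹ * u⁻¹)) := by
  have h1 : u * u⁻¹ = 1 := PowerSeries.mul_inv_cancel u hu
  have h2 := congrArg DD h1
  rw [DD_mul, DD_one] at h2
  calc DD u⁻¹ = (u * u⁻¹) * DD u⁻¹ := by rw [h1, one_mul]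
    _ = u⁻¹ * (u * DD u⁻¹ + u⁻¹ * DD u) - DD u * (u⁻¹ * u⁻¹) := by ring
    _ = _ := by rw [h2]; ring

/-- the series `L_m(Y)` -/
noncomputable def LS (m : ℕ) (Y : Ω⟦X⟧) : Ω⟦X⟧ :=
  Polynomial.aeval Y (H69FD.eul m) * ((1 - Y)⁻¹) ^ (m + 1)

theorem DD_LS (m : ℕ) {Y t : Ω⟦X⟧} (hY : DD Y = t * Y) (hu : constantCoeff (1 - Y) ≠ 0) :
    DD (LS m Y) = t * LS (m + 1) Y := by
  have h1 : (1 - Y) * (1 - Y)⁻¹ = 1 := PowerSeries.mul_inv_cancel _ hu
  unfold LS
  rw [DD_mul, DD_aevalInt hY, DD_pow, DD_inv hu, map_sub, DD_one, hY, Nat.add_sub_cancel,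
    H69FD.eul_succ]
  simp only [map_mul, map_add, map_sub, map_one, Polynomial.aeval_X, map_natCast]
  set v := (1 - Y)⁻¹ with hv
  set E := (Polynomial.aeval Y) (H69FD.eul m)
  set E' := (Polynomial.aeval Y) (Polynomial.derivative (H69FD.eul m))
  calc E * (((m + 1 : ℕ) : Ω⟦X⟧) * v ^ m * -((0 - t * Y) * (v * v))) + v ^ (m + 1) * (t * Y * E')
      = t * Y * (((m : Ω⟦X⟧) + 1) * E) * v ^ (m + 2) + v ^ (m + 1) * (t * Y * E') := by
        push_cast; ring
    _ = t * Y * (((m : Ω⟦X⟧) + 1) * E) * v ^ (m + 2) + v ^ (m + 1) * (t * Y * E') * ((1 - Y) * v) := by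
        rw [h1, mul_one]
    _ = _ := by ring

theorem coeff_LS (m : ℕ) (Y : Ω⟦X⟧) :
    constantCoeff (LS m Y) = H69FD.LL m (constantCoeff Y) := by
  unfold LS H69FD.LL
  rw [map_mul, map_pow, PowerSeries.constantCoeff_inv, map_sub, map_one, div_eq_mul_inv, inv_pow]
  congr 1
  have h := Polynomial.hom_eval₂ (H69FD.eul m) (algebraMap ℤ Ω⟦X⟧) (constantCoeff (R := Ω)) Y
  simp only [Polynomial.aeval_def]
  rw [h]
  congr 1

theorem iter_LS (k : ℕ) {t : ℕ} {Y : Ω⟦X⟧} (hY : DD Y = (t : Ω⟦X⟧) * Y)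
    (hu : constantCoeff (1 - Y) ≠ 0) : ∀ (a m : ℕ),
    DD^[k] (-((t : Ω⟦X⟧) ^ a * LS m Y)) = -((t : Ω⟦X⟧) ^ (a + k) * LS (m + k) Y) := by
  induction k with
  | zero => intro a m; rfl
  | succ k ih =>
    intro a m
    rw [Function.iterate_succ_apply, map_neg, DD_mul, DD_pow, DD_natCast, mul_zero, mul_zero,
      add_zero, DD_LS m hY hu, ← mul_assoc, ← pow_succ, ih, add_right_comm a 1 k,
      add_right_comm m 1 k]
    rfl

/-- the logarithmic derivatives of `α + β (1+X)^r` -/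
theorem dl_lin {j : ℕ} (hj : 2 ≤ j) {α β : Ω} (hα : α ≠ 0) (hαβ : α + β ≠ 0) (r : ℕ) :
    dl j (C α + C β * (1 + X : Ω⟦X⟧) ^ r) = -((r : Ω) ^ j * H69FD.LL (j - 1) (-β / α)) := by
  set T : Ω := -β / α with hT
  set Y : Ω⟦X⟧ := C T * (1 + X) ^ r with hYd
  have hY : DD Y = (r : Ω⟦X⟧) * Y := DD_geom T r
  have h1T : 1 - T ≠ 0 := by
    rw [hT]
    intro h
    apply hαβ
    field_simp at h
    linear_combination h
  have hcY : constantCoeff Y = T := by
    rw [hYd]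
    simp
  have hu : constantCoeff (1 - Y) ≠ 0 := by
    rw [map_sub, map_one, hcY]
    exact h1T
  have e : C α + C β * (1 + X : Ω⟦X⟧) ^ r = C α * (1 - Y) := by
    have h3 : C β = -(C α * C T) := by
      rw [← map_mul, ← map_neg]
      congr 1
      rw [hT]
      field_simp
    rw [hYd, h3]
    ring
  rw [e, dl_mul j (by simpa using hα) hu, dl_C, zero_add]
  unfold dl
  obtain ⟨i, rfl⟩ : ∃ i, j = i + 2 := ⟨j - 2, by omega⟩
  rw [show i + 2 - 1 = i + 1 by omega, Function.iterate_succ_apply]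
  have h1 : (1 - Y) * (1 - Y)⁻¹ = 1 := PowerSeries.mul_inv_cancel _ hu
  have hL0 : LS 0 Y = (1 - Y)⁻¹ := by
    unfold LS
    rw [H69FD.eul_zero, map_one, one_mul, zero_add, pow_one]
  have e2 : DD (1 - Y) * (1 - Y)⁻¹ = (r : Ω⟦X⟧) - (r : Ω⟦X⟧) * LS 0 Y := by
    rw [map_sub, DD_one, hY, hL0]
    calc (0 - (r : Ω⟦X⟧) * Y) * (1 - Y)⁻¹
        = (r : Ω⟦X⟧) * ((1 - Y) * (1 - Y)⁻¹) - r * (1 - Y)⁻¹ := by ring
      _ = _ := by rw [h1, mul_one]
  have e3 : DD (DD (1 - Y) * (1 - Y)⁻¹) = -((r : Ω⟦X⟧) ^ 2 * LS 1 Y) := by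
    rw [e2, map_sub, DD_natCast, DD_mul, DD_natCast, mul_zero, add_zero, DD_LS 0 hY hu]
    ring
  rw [e3, iter_LS i hY hu, map_neg, map_mul, map_pow, map_natCast, coeff_LS, hcY]
  rw [add_comm 2 i, add_comm 1 i]

/-- numerators of the iterated logarithmic derivatives of a polynomial -/
noncomputable def NN (P : Polynomial Ω) : ℕ → Polynomial Ω
  | 0 => Polynomial.X * Polynomial.derivative P
  | k + 1 => Polynomial.X * Polynomial.derivative (NN P k) * P -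
      ((k : Polynomial Ω) + 1) * NN P k * (Polynomial.X * Polynomial.derivative P)

/-- the `j`-th logarithmic derivative of `P` at `x` -/
noncomputable def lamP (j : ℕ) (P : Polynomial Ω) (x : Ω) : Ω :=
  (NN P (j - 1)).eval x / (P.eval x) ^ j

theorem iter_aeval (P : Polynomial Ω) {t : ℕ} {y : Ω⟦X⟧} (hy : DD y = (t : Ω⟦X⟧) * y)
    (hu : constantCoeff (Polynomial.aeval y P) ≠ 0) (k : ℕ) :
    DD^[k] (DD (Polynomial.aeval y P) * (Polynomial.aeval y P)⁻¹) =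
      (t : Ω⟦X⟧) ^ (k + 1) * Polynomial.aeval y (NN P k) * ((Polynomial.aeval y P)⁻¹) ^ (k + 1) := by
  have h1 : Polynomial.aeval y P * (Polynomial.aeval y P)⁻¹ = 1 := PowerSeries.mul_inv_cancel _ hu
  induction k with
  | zero =>
    rw [Function.iterate_zero_apply, map_DD_aeval hy, zero_add, pow_one, pow_one]
    rfl
  | succ k ih =>
    rw [Function.iterate_succ_apply', ih, DD_mul, DD_pow, DD_inv hu, DD_mul, DD_pow, DD_natCast,
      mul_zero, mul_zero, add_zero, map_DD_aeval hy, map_DD_aeval hy, Nat.add_sub_cancel]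
    have e : NN P (k + 1) = Polynomial.X * Polynomial.derivative (NN P k) * P -
      ((k : Polynomial Ω) + 1) * NN P k * (Polynomial.X * Polynomial.derivative P) := rfl
    rw [e]
    simp only [map_sub, map_mul, map_add, map_one, map_natCast, Polynomial.aeval_X]
    set v := (Polynomial.aeval y P)⁻¹
    set A := Polynomial.aeval y P
    set N := Polynomial.aeval y (NN P k)
    set N' := Polynomial.aeval y (Polynomial.derivative (NN P k))
    set A' := Polynomial.aeval y (Polynomial.derivative P)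
    calc (t : Ω⟦X⟧) ^ (k + 1) * N * (((k + 1 : ℕ) : Ω⟦X⟧) * v ^ k * -((t : Ω⟦X⟧) * (y * A') * (v * v))) +
          v ^ (k + 1) * ((t : Ω⟦X⟧) ^ (k + 1) * ((t : Ω⟦X⟧) * (y * N')))
        = (t : Ω⟦X⟧) ^ (k + 2) * (y * N') * v ^ (k + 1) * 1 -
          (t : Ω⟦X⟧) ^ (k + 2) * (((k : Ω⟦X⟧) + 1) * N * (y * A')) * v ^ (k + 2) := by
          push_cast; ring
      _ = _ := by rw [← h1]; ring

/-- `dl j (P(y)) = t^j * lamP j P (y(0))` if `DD y = t y` -/
theorem dl_aeval {j : ℕ} (hj : 1 ≤ j) (P : Polynomial Ω) {t : ℕ} {y : Ω⟦X⟧}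
    (hy : DD y = (t : Ω⟦X⟧) * y) (hu : P.eval (constantCoeff y) ≠ 0) :
    dl j (Polynomial.aeval y P) = (t : Ω) ^ j * lamP j P (constantCoeff y) := by
  have hc : ∀ Q : Polynomial Ω, constantCoeff (Polynomial.aeval y Q) = Q.eval (constantCoeff y) := by
    intro Q
    have h := Polynomial.hom_eval₂ Q (algebraMap Ω Ω⟦X⟧) (constantCoeff (R := Ω)) y
    rw [Polynomial.aeval_def, h, Polynomial.eval₂_eq_eval_map]
    congr 1
    have : (constantCoeff (R := Ω)).comp (algebraMap Ω Ω⟦X⟧) = RingHom.id Ω := by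
      ext x
      exact PowerSeries.constantCoeff_C x
    rw [this, Polynomial.map_id]
  unfold dl
  rw [iter_aeval P hy (by rw [hc]; exact hu)]
  rw [Nat.sub_add_cancel hj, map_mul, map_mul, map_pow, map_pow, map_natCast,
    PowerSeries.constantCoeff_inv, hc, hc, inv_pow, mul_assoc, ← div_eq_mul_inv]
  rfl

end H93AB
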