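import Pool.Agent.H65.AB.MAB

/-!
# Project AB: coarse embeddings of subgroups
-/

set_option autoImplicit false

namespace Pool.Agent.H93.AB

open Pool.Agent.H93.AA Pool.Agent.H4.FC H42.NU Pool.Agent.H65.AB
open Pool.Agent.H10.CI (CoarseEmb CoarseEmb.hom CoarseEmb.comp)

/-- a coarse embedding of a subgroup which contains the groups `Γ v` and powers of the elements `Δ_T` -/
theorem cem_of_sub {S Λ : Type} [Fintype S] [DecidableEq S] [Group Λ] {M : CoxeterMatrix S}
    {F : Finset S} (hF : Mix M F) {Γ : S → Type} [∀ v, Group (Γ v)] (P : Subgroup (AG M F Γ))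
    (hP1 : ∀ v ∈ F, ∀ a : Γ v, io M F v a ∈ P)
    (hP2 : ∀ T : Finset S, Sph M T → Disjoint T F → ∃ k : ℕ, 0 < k ∧ th M F Γ (dlt M T) ^ k ∈ P)
    {f : P → Λ} (hf : CoarseEmb f) : CEm M F Γ Λ := by
  classical
  let fI : Fintype (Irr M) := Fintype.ofFinite _
  have h1 : ∀ X : Irr M, ∃ k : ℕ, 0 < k ∧ th M F Γ (xg M X) ^ k ∈ P := by
    intro X
    by_cases hX : X ∈ lF M F
    · obtain ⟨v, hv, rfl⟩ := mem_lF.1 hX
      refine ⟨1, one_pos, ?_⟩
      have h2 : xg M (sing M v) ∈ (th M F Γ).ker := by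
        refine (Subgroup.closure_le _).2 ?_ (xg_mem_gp M (sing M v))
        rintro x ⟨s, hs, rfl⟩
        have hs' : s = v := Finset.mem_singleton.1 hs
        rw [hs']
        exact th_F hv
      rw [MonoidHom.mem_ker.1 h2, one_pow]
      exact P.one_mem
    · obtain ⟨k, hk, hkP⟩ := hP2 X.1 X.2.1 (disj hF hX)
      refine ⟨k, hk, ?_⟩
      have h2 : th M F Γ (xg M X) ^ k = (th M F Γ (dlt M X.1) ^ k) ^ 2 := by
        show th M F Γ (dlt M X.1 ^ 2) ^ k = _
        rw [map_pow, ← pow_mul, ← pow_mul, mul_comm]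
      rw [h2]
      exact P.pow_mem hkP 2
  choose k hk hkP using h1
  refine ⟨∏ X, k X, Finset.prod_pos fun X _ => hk X, ?_⟩
  have h2 : AN M F Γ (∏ X, k X) ≤ P := by
    unfold AN
    rw [Subgroup.closure_le]
    rintro x (⟨v, hv, a, rfl⟩ | ⟨X, rfl⟩)
    · exact hP1 v hv a
    · obtain ⟨m, hm⟩ := Finset.dvd_prod_of_mem k (Finset.mem_univ X)
      show _ ∈ P
      rw [hm, pow_mul]
      exact P.pow_mem (hkP X) m
  exact ⟨_, hf.comp (CoarseEmb.hom (f := Subgroup.inclusion h2) (Subgroup.inclusion_injective h2))⟩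

end Pool.Agent.H93.AB
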