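import Pool.Agent.H78.RA.Gen

/-!
# Project AB: components with general indices

As H78/RA/Cpx, Fn (written by helper78), with an arbitrary finite type of indices instead of the finite sets.
-/

set_option autoImplicit false
set_option linter.unusedSectionVars false

namespace Pool.Agent.H93.AB

open Finset
open Pool.Agent.H4.Atiyah Pool.Agent.H78.RA

/-- the indices which satisfy a predicate -/
abbrev Iy {I : Type} (P : I → Prop) := {p : I // P p}

section

open Classical

variable {I : Type} [Fintype I] {Γ : Type} [Group Γ]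

/-- the component with an index -/
noncomputable def cq (P : I → Prop) (x : LL (Iy P) Γ) (p : I) : LL Unit Γ :=
  if h : P p then pr (⟨p, h⟩ : Iy P) x else 0

theorem cq_pos {P : I → Prop} (x : LL (Iy P) Γ) (p : I) (h : P p) :
    cq P x p = pr (⟨p, h⟩ : Iy P) x := dif_pos h

theorem cq_neg {P : I → Prop} (x : LL (Iy P) Γ) (p : I) (h : ¬ P p) : cq P x p = 0 := dif_neg h

theorem cq_supp {P : I → Prop} (x : LL (Iy P) Γ) (p : I) (h : cq P x p ≠ 0) : P p := by
  by_contra hc
  exact h (cq_neg x p hc)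

theorem cq_ext {P : I → Prop} {x y : LL (Iy P) Γ} (h : ∀ p, cq P x p = cq P y p) : x = y := by
  apply ext_pr
  rintro ⟨p, hp⟩
  rw [← cq_pos, ← cq_pos, h]

theorem cq_zero {P : I → Prop} (p : I) : cq P (0 : LL (Iy P) Γ) p = 0 := by
  unfold cq
  split_ifs
  · exact map_zero _
  · rfl

theorem cq_sub {P : I → Prop} (x y : LL (Iy P) Γ) (p : I) :
    cq P (x - y) p = cq P x p - cq P y p := by
  unfold cq
  split_ifs
  · exact map_sub _ _ _
  · rw [sub_zero]

/-- the operator of a matrix of operators -/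
noncomputable def Mq (P Q : I → Prop) (M : I → I → BB Γ) : LL (Iy P) Γ →L[ℂ] LL (Iy Q) Γ :=
  Mop fun a b => M a.1 b.1

theorem cq_Mq (P Q : I → Prop) (M : I → I → BB Γ) (x : LL (Iy P) Γ) (b : I) (hb : Q b) :
    cq Q (Mq P Q M x) b = ∑ a, M a b (cq P x a) := by
  rw [cq_pos _ _ hb]
  unfold Mq
  rw [pr_Mop]
  have h1 : ∀ a, M a b (cq P x a) ≠ 0 → P a := by
    intro a ha
    by_contra hc
    apply ha
    rw [cq_neg _ _ hc, map_zero]
  rw [← Finset.sum_filter_of_ne (p := P) (fun a _ h => h1 a h),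
    Finset.sum_subtype (univ.filter P) (p := P) (by simp)]
  apply Finset.sum_congr rfl
  rintro ⟨a, ha⟩ _
  rw [cq_pos _ _ ha]

theorem eqv_Mq (P Q : I → Prop) (M : I → I → BB Γ) (h : ∀ a b, Eqv (M a b)) : Eqv (Mq P Q M) :=
  eqv_Mop _ fun a b => h a.1 b.1

/-- the diagonal operator -/
noncomputable def Aq (P : I → Prop) (α : I → BB Γ) : LL (Iy P) Γ →L[ℂ] LL (Iy P) Γ :=
  Mq P P fun a b => if a = b then α a else 0

theorem cq_Aq (P : I → Prop) (α : I → BB Γ) (x : LL (Iy P) Γ) (p : I) :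
    cq P (Aq P α x) p = α p (cq P x p) := by
  by_cases hp : P p
  · unfold Aq
    rw [cq_Mq P P _ x p hp, Finset.sum_eq_single p, if_pos rfl]
    · intro a _ ha
      rw [if_neg ha]
      rfl
    · intro h
      exact absurd (Finset.mem_univ _) h
  · rw [cq_neg _ _ hp, cq_neg _ _ hp, map_zero]

theorem eqv_Aq (P : I → Prop) (α : I → BB Γ) (hα : ∀ p, Eqv (α p)) : Eqv (Aq P α) := by
  apply eqv_Mq
  intro a b
  split_ifs
  · exact hα _
  · exact Eqv.zero

/-- the element of `ℓ²` with given components -/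
theorem exists_of_cq (P : I → Prop) (y : I → LL Unit Γ) (hy : ∀ p, y p ≠ 0 → P p) :
    ∃ w : LL (Iy P) Γ, ∀ p, cq P w p = y p := by
  refine ⟨∑ a : Iy P, inc a (y a.1), fun p => ?_⟩
  by_cases h : P p
  · rw [cq_pos _ _ h, map_sum, Finset.sum_eq_single (⟨p, h⟩ : Iy P)]
    · rw [pr_inc, if_pos rfl]
    · intro b _ hb
      rw [pr_inc, if_neg (Ne.symm hb)]
    · intro h1
      exact absurd (Finset.mem_univ _) h1
  · rw [cq_neg _ _ h]
    by_contra h0
    exact h (hy p (Ne.symm h0))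

/-! ### Functions -/

/-- square summable chains supported on the indices which satisfy `P` -/
structure IsF2 (P : I → Prop) (f : I → Γ → ℂ) : Prop where
  supp : ∀ p g, f p g ≠ 0 → P p
  l2 : ∀ p, Summable fun g => ‖f p g‖ ^ 2

theorem mem_of_f2 (P : I → Prop) {f : I → Γ → ℂ} (hf : IsF2 P f) :
    Summable fun p : Iy P × Γ => ‖f p.1.1 p.2‖ ^ 2 := by
  rw [← (Equiv.prodComm (Iy P) Γ).symm.summable_iff]
  apply (summable_prod_of_nonneg _).2
  · constructor
    · intro g
      exact (hasSum_fintype _).summable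
    · have h1 : ∀ g : Γ, ∑' j : Iy P, ‖f j.1 g‖ ^ 2 = ∑ j : Iy P, ‖f j.1 g‖ ^ 2 := fun g =>
        tsum_fintype _
      show Summable fun g : Γ => ∑' j : Iy P, ‖f j.1 g‖ ^ 2
      simp_rw [h1]
      exact summable_sum fun j _ => hf.l2 j.1
  · intro p
    exact sq_nonneg _

/-- the element of `ℓ²` of a chain -/
noncomputable def toQ (P : I → Prop) {f : I → Γ → ℂ} (hf : IsF2 P f) : LL (Iy P) Γ :=
  ⟨fun p => f p.1.1 p.2, (memlp_iff _).2 (mem_of_f2 P hf)⟩

theorem ev_toQ (P : I → Prop) {f : I → Γ → ℂ} (hf : IsF2 P f) (p : I) (g : Γ) :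
    ev g (cq P (toQ P hf) p) = f p g := by
  by_cases h : P p
  · rw [cq_pos _ _ h]
    show pr (⟨p, h⟩ : Iy P) (toQ P hf) ((), g) = _
    rw [pr_apply]
    rfl
  · rw [cq_neg _ _ h, map_zero]
    by_contra hne
    exact h (hf.supp p g (Ne.symm hne))

/-- the chain of an element of `ℓ²` -/
theorem isF2_cq (P : I → Prop) (x : LL (Iy P) Γ) : IsF2 P fun p g => ev g (cq P x p) where
  supp := by
    intro p g h
    apply cq_supp x
    intro h0
    rw [h0, map_zero] at h
    exact h rfl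
  l2 := by
    intro p
    have h1 : Summable fun q : Unit × Γ => ‖(cq P x p) q‖ ^ 2 := (memlp_iff _).1 (lp.memℓp _)
    exact h1.comp_injective (i := fun g : Γ => ((), g)) (fun a b h => (Prod.ext_iff.1 h).2)

theorem norm_sq_cq (P : I → Prop) (x : LL (Iy P) Γ) :
    ∑ p, ∑' g, ‖ev g (cq P x p)‖ ^ 2 = ‖x‖ ^ 2 := by
  have hs : Summable fun p : Iy P × Γ => ‖x p‖ ^ 2 := (memlp_iff _).1 (lp.memℓp _)
  rw [norm_sq_lp, hs.tsum_prod, tsum_fintype]
  have h1 : ∀ p : I, ∑' g, ‖ev g (cq P x p)‖ ^ 2 ≠ 0 → P p := by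
    intro p hp
    by_contra hc
    apply hp
    rw [cq_neg _ _ hc]
    simp
  rw [← Finset.sum_filter_of_ne (p := P) (fun p _ h => h1 p h),
    Finset.sum_subtype (univ.filter P) (p := P) (by simp)]
  apply Finset.sum_congr rfl
  rintro ⟨p, hp⟩ _
  apply tsum_congr
  intro g
  rw [cq_pos _ _ hp]
  show ‖pr (⟨p, hp⟩ : Iy P) x ((), g)‖ ^ 2 = _
  rw [pr_apply]

end

end Pool.Agent.H93.AB
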